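import Mathlib

/-!
# Fixed points of isomorphism-permutations of regular self-complementary graphs

A regular self-complementary graph on `13 = 4 * 3 + 1` vertices with a vertex lying in exactly
`6 = 3 * 2` triangles which is not fixed by any isomorphism-permutation.
-/

set_option autoImplicit false

namespace Pool.Agent.Results.MP_b6be33_co.BalancedNotFixed

/-- `P` is an isomorphism-permutation of `G`: an isomorphism from `G` onto its complement. -/
def IsoPerm {V : Type} (G : SimpleGraph V) (P : Equiv.Perm V) : Prop :=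
  ∀ u v : V, u ≠ v → (G.Adj u v ↔ ¬ G.Adj (P u) (P v))

/-- `G` is isomorphic to its complement. -/
def SelfComplementary {V : Type} (G : SimpleGraph V) : Prop := Nonempty (G ≃g Gᶜ)

/-- `G` is regular. -/
def Regular {V : Type} (G : SimpleGraph V) : Prop := ∃ d : ℕ, ∀ v : V, (G.neighborSet v).ncard = d

/-- The vertices fixed by at least one isomorphism-permutation. -/
def fixedSet {V : Type} (G : SimpleGraph V) : Set V := {v | ∃ P, IsoPerm G P ∧ P v = v}

/-- The number of triangles of `G` containing `v`. -/
noncomputable def trianglesAt {V : Type} (G : SimpleGraph V) (v : V) : ℕ :=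
  {s : Finset V | G.IsNClique 3 s ∧ v ∈ s}.ncard

/-- Row `i` of the adjacency matrix, as a bit mask. -/
def row : Fin 13 → ℕ :=
  ![5290, 1937, 4824, 6245, 3366, 2265, 3628, 807, 6802, 1478, 4691, 4472, 3341]

/-- Adjacency in the graph. -/
def adj (i j : Fin 13) : Bool := (row i).testBit j.val

/-- The graph. -/
def gr : SimpleGraph (Fin 13) where
  Adj x y := adj x y = true
  symm := ⟨by decide⟩
  loopless := ⟨by decide⟩

instance : DecidableRel gr.Adj := fun x y => inferInstanceAs (Decidable (adj x y = true))

/-- The isomorphism-permutation `(1 2 3 4)(5 6 7 8)(9 10 11 12)`. -/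
def pfun : Fin 13 → Fin 13 := ![0, 2, 3, 4, 1, 6, 7, 8, 5, 10, 11, 12, 9]

/-- Its inverse. -/
def pinv : Fin 13 → Fin 13 := ![0, 4, 1, 2, 3, 8, 5, 6, 7, 12, 9, 10, 11]

/-- The isomorphism-permutation. -/
def perm : Equiv.Perm (Fin 13) where
  toFun := pfun
  invFun := pinv
  left_inv := by decide
  right_inv := by decide

theorem perm_isoPerm : IsoPerm gr perm := by
  unfold IsoPerm
  decide

theorem gr_sc : SelfComplementary gr := by
  refine ⟨⟨perm, ?_⟩⟩
  intro u v
  rw [SimpleGraph.compl_adj]
  by_cases huv : u = v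
  · subst huv
    simp
  · have h := perm_isoPerm u v huv
    constructor
    · rintro ⟨-, h2⟩
      exact h.2 h2
    · intro h2
      exact ⟨fun he => huv (perm.injective he), h.1 h2⟩

theorem gr_regular : Regular gr := by
  refine ⟨6, fun v => ?_⟩
  have h : gr.neighborSet v = ((Finset.univ.filter (fun w => gr.Adj v w) : Finset (Fin 13)) :
      Set (Fin 13)) := by
    ext w
    simp
  rw [h, Set.ncard_coe_finset]
  clear h
  revert v
  decide

/-- The triangles through vertex 8. -/
def tris : Finset (Finset (Fin 13)) :=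
  (Finset.univ.filter (fun p : Fin 13 × Fin 13 => p.1 < p.2 ∧ adj 8 p.1 ∧ adj 8 p.2 ∧
    adj p.1 p.2)).image (fun p => {8, p.1, p.2})

theorem key (a b c : Fin 13) (hab : gr.Adj a b) (hac : gr.Adj a c) (hbc : gr.Adj b c)
    (h8 : (8 : Fin 13) ∈ ({a, b, c} : Finset (Fin 13))) :
    ∃ x y : Fin 13, gr.Adj 8 x ∧ gr.Adj 8 y ∧ gr.Adj x y ∧
      ({a, b, c} : Finset (Fin 13)) = {8, x, y} := by
  simp only [Finset.mem_insert, Finset.mem_singleton] at h8
  rcases h8 with h | h | h
  · subst h
    exact ⟨b, c, hab, hac, hbc, rfl⟩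
  · subst h
    exact ⟨a, c, hab.symm, hbc, hac, by ext; simp; tauto⟩
  · subst h
    exact ⟨a, b, hac.symm, hbc.symm, hab, by ext; simp; tauto⟩

theorem tri_count : trianglesAt gr 8 = 6 := by
  have h : {s : Finset (Fin 13) | gr.IsNClique 3 s ∧ (8 : Fin 13) ∈ s} =
      (tris : Set (Finset (Fin 13))) := by
    ext s
    simp only [Set.mem_ofPred_eq, tris, Finset.coe_image, Set.mem_image, Finset.mem_coe,
      Finset.mem_filter, Finset.mem_univ, true_and, Prod.exists]
    constructor
    · rintro ⟨h1, h2⟩
      rw [SimpleGraph.is3Clique_iff] at h1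
      obtain ⟨a, b, c, hab, hac, hbc, rfl⟩ := h1
      obtain ⟨x, y, hx, hy, hxy, he⟩ := key a b c hab hac hbc h2
      rcases lt_trichotomy x y with hlt | heq | hgt
      · exact ⟨x, y, ⟨hlt, hx, hy, hxy⟩, he.symm⟩
      · exact absurd heq hxy.ne
      · refine ⟨y, x, ⟨hgt, hy, hx, hxy.symm⟩, ?_⟩
        rw [he]
        ext
        simp
        tauto
    · rintro ⟨x, y, ⟨-, hx, hy, hxy⟩, rfl⟩
      refine ⟨?_, by simp⟩
      rw [SimpleGraph.is3Clique_iff]
      exact ⟨8, x, y, hx, hy, hxy, rfl⟩
  unfold trianglesAt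
  rw [h, Set.ncard_coe_finset]
  decide

/-- Twice the number of edges between neighbours of `u`, for a Boolean adjacency relation. -/
def cnt (f : Fin 13 → Fin 13 → Bool) (u : Fin 13) : ℕ :=
  (Finset.univ.filter (fun p : Fin 13 × Fin 13 => f u p.1 ∧ f u p.2 ∧ f p.1 p.2)).card

/-- Adjacency in the complement. -/
def cadj (i j : Fin 13) : Bool := decide (i ≠ j) && !(adj i j)

theorem cnt_perm {P : Equiv.Perm (Fin 13)} (hP : IsoPerm gr P) (u : Fin 13) :
    cnt adj u = cnt cadj (P u) := by
  have hP' : ∀ x y, adj x y = cadj (P x) (P y) := by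
    intro x y
    by_cases hxy : x = y
    · subst hxy
      have : adj x x = false := by
        revert x
        decide
      simp [cadj, this]
    · have h := hP x y hxy
      have h2 : P x ≠ P y := fun he => hxy (P.injective he)
      change (adj x y = true ↔ ¬ adj (P x) (P y) = true) at h
      unfold cadj
      cases h3 : adj x y <;> cases h4 : adj (P x) (P y) <;> simp_all
  unfold cnt
  refine Finset.card_equiv (Equiv.prodCongr P P) ?_
  intro p
  simp only [Finset.mem_filter, Finset.mem_univ, true_and, Equiv.prodCongr_apply, Prod.map]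
  rw [hP' u p.1, hP' u p.2, hP' p.1 p.2]

theorem not_fixed : (8 : Fin 13) ∉ fixedSet gr := by
  rintro ⟨P, hP, h8⟩
  have h1 : (Finset.univ.filter (fun u => adj 8 u ∧ cnt adj u = 10)).card =
      (Finset.univ.filter (fun u => cadj 8 u ∧ cnt cadj u = 10)).card := by
    refine Finset.card_equiv P ?_
    intro u
    simp only [Finset.mem_filter, Finset.mem_univ, true_and]
    rw [cnt_perm hP u]
    have : adj 8 u = cadj 8 (P u) := by
      by_cases hu : (8 : Fin 13) = u
      · subst hu
        rw [h8]
        decide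
      · have h := hP 8 u hu
        have h2 : (8 : Fin 13) ≠ P u := fun he => hu (P.injective (h8.trans he))
        rw [h8] at h
        change (adj 8 u = true ↔ ¬ adj 8 (P u) = true) at h
        unfold cadj
        cases h3 : adj 8 u <;> cases h4 : adj 8 (P u) <;> simp_all
    rw [this]
  revert h1
  decide +kernel

/-- **Q1 is false** (with `k = 3`): there is a regular self-complementary graph on `4 k + 1`
vertices with a vertex in exactly `k (k - 1)` triangles which no isomorphism-permutation fixes. -/
theorem result : ∃ (k : ℕ) (G : SimpleGraph (Fin (4 * k + 1))) (v : Fin (4 * k + 1)),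
    Regular G ∧ SelfComplementary G ∧ trianglesAt G v = k * (k - 1) ∧ v ∉ fixedSet G :=
  ⟨3, gr, (8 : Fin 13), gr_regular, gr_sc, tri_count, not_fixed⟩

end Pool.Agent.Results.MP_b6be33_co.BalancedNotFixed
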